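import Mathlib
import Pool.Agent.Run7.h384.WSF

/-!
# The growth exponents of Weyl sums: positive Hausdorff dimension on an interval of exponents

For every degree `d ≥ 2` and every exponent `α` with `2/3 < α < 1` the set of the points of the
unit torus at which the Weyl sums of degree `d` have growth exponent exactly `α` has positive
Hausdorff dimension.
-/

set_option autoImplicit false

open Filter

namespace Pool.Agent.Results.MP_3c4aa6_nt.IntervalOfExponents

/-- The Weyl sum `S_d(x; N) = ∑_{n=1}^N exp(2πi (x_1 n + x_2 n^2 + ⋯ + x_d n^d))`, where the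
coordinate `x_j` is `x (j - 1)`. -/
noncomputable def weylSum (d : ℕ) (x : Fin d → ℝ) (N : ℕ) : ℂ :=
  ∑ n ∈ Finset.Icc 1 N, Complex.exp (2 * Real.pi * Complex.I *
    ∑ j : Fin d, (x j : ℂ) * (n : ℂ) ^ ((j : ℕ) + 1))

/-- The growth exponent `σ(x) = limsup_{N → ∞} log |S_d(x; N)| / log N`, in the extended reals
(with `log 0 = -∞`). -/
noncomputable def growthExponent (d : ℕ) (x : Fin d → ℝ) : EReal :=
  limsup (fun N : ℕ => ENNReal.log ‖weylSum d x N‖ₑ / ((Real.log N : ℝ) : EReal)) atTop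

/-- The level set `Ω_α` of the growth exponent on the unit torus `[0,1)^d`. -/
def Omega (d : ℕ) (α : ℝ) : Set (Fin d → ℝ) :=
  {x | (∀ j, x j ∈ Set.Ico (0 : ℝ) 1) ∧ growthExponent d x = (α : EReal)}

/-- the point of the torus whose second coordinate is `x` and whose other coordinates are zero -/
noncomputable def pt (d : ℕ) (x : ℝ) : Fin d → ℝ := fun j => if (j : ℕ) = 1 then x else 0

lemma weylSum_pt (d : ℕ) (hd : 2 ≤ d) (x : ℝ) (N : ℕ) :
    weylSum d (pt d x) N = Run7.h384.WS.S x N := by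
  unfold weylSum Run7.h384.WS.S
  refine Finset.sum_congr rfl fun n _ => ?_
  unfold Pool.Agent.H520R3.e
  congr 1
  have h1 : ∑ j : Fin d, ((pt d x j : ℝ) : ℂ) * (n : ℂ) ^ ((j : ℕ) + 1) = (x : ℂ) * (n : ℂ) ^ 2 := by
    rw [Finset.sum_eq_single (⟨1, hd⟩ : Fin d)]
    · simp [pt]
    · intro j _ hj
      have : (j : ℕ) ≠ 1 := fun h => hj (Fin.ext h)
      simp [pt, this]
    · intro h
      exact absurd (Finset.mem_univ _) h
  rw [h1]
  push_cast
  ring

/-- **Theorem.** For every `d ≥ 2` and every `α` in the interval `(2/3, 1)`, the set of the points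
of the torus `[0,1)^d` at which the Weyl sums have growth exponent `α` has positive Hausdorff
dimension. -/
theorem result : ∀ d : ℕ, 2 ≤ d → ∀ α ∈ Set.Ioo (2 / 3 : ℝ) 1, 0 < dimH (Omega d α) := by
  intro d hd α hα
  have hτ := Run7.h384.WS.tau_gt α hα.1 hα.2
  refine lt_of_lt_of_le (Run7.h384.WS.dimH_pos (1 / (1 - α)) hτ) ?_
  have hlip : LipschitzWith 1 (fun y : Fin d → ℝ => y ⟨1, hd⟩) := LipschitzWith.eval _
  refine le_trans (dimH_mono ?_) (hlip.dimH_image_le (Omega d α))
  rintro _ ⟨t, ht, rfl⟩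
  refine ⟨pt d (Run7.h384.WS.X (1 / (1 - α)) t), ⟨?_, ?_⟩, ?_⟩
  · intro j
    unfold pt
    split_ifs
    · exact Run7.h384.WS.X_mem (1 / (1 - α)) hτ t
    · exact ⟨le_refl _, by norm_num⟩
  · unfold growthExponent
    apply Run7.h384.WS.limsup_eq _ α _ 24 (by norm_num)
    · refine (Run7.h384.WS.lowerS α hα.1 hα.2 t).mono fun N hN => ?_
      rwa [weylSum_pt d hd]
    · intro ε hε
      filter_upwards [Run7.h384.WS.upper α hα.1 hα.2 t ε hε] with N hN
      rwa [weylSum_pt d hd]
  · simp [pt]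

end Pool.Agent.Results.MP_3c4aa6_nt.IntervalOfExponents
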